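import Pool.Agent.H32.Dense.EntX

/-!
# The turning step: the entropy core

One shape of the pair of windows. `Z` is the side information, `b₀`, `b₁` are the labels of the line
at two small windows `τ₀`, `τ₁` of one large window, `C` is a coarse label of the large window,
almost a function of `b₀` and almost a function of `b₁`, `J` is the join of the two labels, seen in
the window `τ₁`, and `Y` is a fine point of the line in the window `τ₁`.

The numbers: `vb` is the count of the label `b` (length of the window plus volume exponent), `vC` the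
count of `C`, `cnt` the number of digits of `Y` given `C`; the defect of `b` is `vb - Hb`,
the filling is `vC + cnt - H(C, Y | Z)`. The two labels are visible from the fine points up to the
difference of the filling and of the defect, so the join is visible, and the box given the join
is as good as the box given `C`.
-/

set_option autoImplicit false

namespace Pool.TURN

open Finset Real
open Pool.Agent.H49.Ent Pool.Agent.H32.Dense

section core

variable {Ω : Type*} [Fintype Ω] {α β β' γ θ ζ : Type*}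

/-- The data of one shape of the pair: the labels `b₀`, `b₁` have entropy at most `Hb`, they
determine the coarse label `C` up to `C₀`, and the fine points `Y` are counted given `b₀`
(with the loss `A₀`, the large window) and given `b₁` (with the loss `A₁`, the own window). -/
structure Cnt (p : Ω → ℝ) (Z : Ω → ζ) (C : Ω → α) (b₀ : Ω → β) (b₁ : Ω → β') (Y : Ω → γ)
    (v vb Hb C₀ A₀ A₁ : ℝ) : Prop where
  h0 : CH p b₀ Z ≤ Hb
  h1 : CH p b₁ Z ≤ Hb
  c0 : CH p C (fun ω => (b₀ ω, Z ω)) ≤ C₀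
  c1 : CH p C (fun ω => (b₁ ω, Z ω)) ≤ C₀
  y0 : CH p Y (fun ω => (b₀ ω, Z ω)) ≤ v - vb + A₀
  y1 : CH p Y (fun ω => (b₁ ω, Z ω)) ≤ v - vb + A₁

/-- The filling of the coarse label, `v = vC + cnt`. -/
noncomputable def Fill (p : Ω → ℝ) (Z : Ω → ζ) (C : Ω → α) (Y : Ω → γ) (v : ℝ) : ℝ :=
  v - CH p (fun ω => (Y ω, C ω)) Z

variable {p : Ω → ℝ} {Z : Ω → ζ} {C : Ω → α} {b₀ : Ω → β} {b₁ : Ω → β'} {Y : Ω → γ} {J : Ω → θ}
  {v vb Hb C₀ A₀ A₁ : ℝ}

/-- The filling is the defect of `C`, plus the count, minus the entropy of the points. -/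
theorem fill_eq (hp : ∀ ω, 0 ≤ p ω) (vC cnt : ℝ) :
    Fill p Z C Y (vC + cnt) = (vC - CH p C Z) + (cnt - CH p Y (fun ω => (C ω, Z ω))) := by
  unfold Fill
  rw [CH_chain hp]
  ring

/-- A label and the points, given that the label determines the coarse label. -/
theorem pair_le {κ : Type*} (hp : ∀ ω, 0 ≤ p ω) (b : Ω → κ) {h c y : ℝ} (hb : CH p b Z ≤ h)
    (hc : CH p C (fun ω => (b ω, Z ω)) ≤ c) (hy : CH p Y (fun ω => (b ω, Z ω)) ≤ y) :
    CH p (fun ω => (b ω, (Y ω, C ω))) Z ≤ h + c + y := by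
  have e1 : CH p (fun ω => (b ω, (Y ω, C ω))) Z ≤
      CH p b Z + CH p (fun ω => (Y ω, C ω)) (fun ω => (b ω, Z ω)) := by
    have h1 := CH_chain hp (fun ω => (Y ω, C ω)) b Z
    have h2 := CH_mono_left hp (X' := fun ω => ((Y ω, C ω), b ω))
      (X := fun ω => (b ω, (Y ω, C ω))) (W := Z) (fun ω ω' _ _ h => by
        simp only [Prod.mk.injEq] at h ⊢
        tauto)
    linarith
  have e2 := CH_subadd hp Y C (fun ω => (b ω, Z ω))
  linarith

/-- **Visibility.** The entropy of a label given the points and the coarse label. -/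
theorem vis {κ : Type*} (hp : ∀ ω, 0 ≤ p ω) (b : Ω → κ) {h c y : ℝ} (hb : CH p b Z ≤ h)
    (hc : CH p C (fun ω => (b ω, Z ω)) ≤ c) (hy : CH p Y (fun ω => (b ω, Z ω)) ≤ y) :
    CH p b (fun ω => ((Y ω, C ω), Z ω)) ≤ h + c + y - CH p (fun ω => (Y ω, C ω)) Z := by
  have h1 := pair_le hp b hb hc hy
  have h2 := CH_chain hp b (fun ω => (Y ω, C ω)) Z
  linarith

/-- The filling is at least the defect of the label. -/
theorem Cnt.fill_ge (hp : ∀ ω, 0 ≤ p ω) (h : Cnt p Z C b₀ b₁ Y v vb Hb C₀ A₀ A₁) :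
    vb - Hb - C₀ - A₁ ≤ Fill p Z C Y v := by
  have h1 := vis hp b₁ h.h1 h.c1 h.y1
  have h2 := CH_nonneg hp b₁ (fun ω => ((Y ω, C ω), Z ω))
  unfold Fill
  linarith

/-- The label of the own window is visible from the points. -/
theorem Cnt.vis1 (hp : ∀ ω, 0 ≤ p ω) (h : Cnt p Z C b₀ b₁ Y v vb Hb C₀ A₀ A₁) :
    CH p b₁ (fun ω => ((Y ω, C ω), Z ω)) ≤ Fill p Z C Y v - (vb - Hb) + C₀ + A₁ := by
  have h1 := vis hp b₁ h.h1 h.c1 h.y1
  unfold Fill
  linarith

/-- The label of the other window is visible from the points. -/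
theorem Cnt.vis0 (hp : ∀ ω, 0 ≤ p ω) (h : Cnt p Z C b₀ b₁ Y v vb Hb C₀ A₀ A₁) :
    CH p b₀ (fun ω => ((Y ω, C ω), Z ω)) ≤ Fill p Z C Y v - (vb - Hb) + C₀ + A₀ := by
  have h1 := vis hp b₀ h.h0 h.c0 h.y0
  unfold Fill
  linarith

/-- The join is visible from the points. -/
theorem Cnt.visJ (hp : ∀ ω, 0 ≤ p ω) (h : Cnt p Z C b₀ b₁ Y v vb Hb C₀ A₀ A₁) {C₂ : ℝ}
    (hJ : CH p J (fun ω => ((b₀ ω, b₁ ω), Z ω)) ≤ C₂) :
    CH p J (fun ω => ((Y ω, C ω), Z ω)) ≤
      2 * (Fill p Z C Y v - (vb - Hb)) + 2 * C₀ + A₀ + A₁ + C₂ := by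
  have h0 := h.vis0 hp
  have h1 := h.vis1 hp
  have h2 := CH_le_add hp J (fun ω => (b₀ ω, b₁ ω)) (fun ω => ((Y ω, C ω), Z ω))
  have h3 := CH_subadd hp b₀ b₁ (fun ω => ((Y ω, C ω), Z ω))
  have h4 := CH_mono_cond hp (X := J) (W' := fun ω => ((b₀ ω, b₁ ω), ((Y ω, C ω), Z ω)))
    (W := fun ω => ((b₀ ω, b₁ ω), Z ω)) (fun ω ω' _ _ h => by
      simp only [Prod.mk.injEq] at h ⊢
      tauto)
  linarith

/-- The filling of the join is the filling of `C` minus the part of the join which is not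
visible. -/
theorem fill_join (hp : ∀ ω, 0 ≤ p ω) :
    Fill p Z C Y v - CH p J (fun ω => ((Y ω, C ω), Z ω)) ≤ Fill p Z J Y v := by
  have h1 := CH_chain hp J (fun ω => (Y ω, C ω)) Z
  have h2 := CH_mono_left hp (X' := fun ω => (J ω, (Y ω, C ω)))
    (X := fun ω => (Y ω, J ω)) (W := Z) (fun ω ω' _ _ h => by
      simp only [Prod.mk.injEq] at h ⊢
      tauto)
  unfold Fill
  linarith

/-- **The box given the join.** The filling of the join is at least the defect of the label, minus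
the difference of the filling of `C` and of this defect. -/
theorem Cnt.join (hp : ∀ ω, 0 ≤ p ω) (h : Cnt p Z C b₀ b₁ Y v vb Hb C₀ A₀ A₁) {C₂ : ℝ}
    (hJ : CH p J (fun ω => ((b₀ ω, b₁ ω), Z ω)) ≤ C₂) :
    (vb - Hb) - (Fill p Z C Y v - (vb - Hb)) - (2 * C₀ + A₀ + A₁ + C₂) ≤ Fill p Z J Y v := by
  have h1 := h.visJ hp hJ
  have h2 := fill_join (p := p) (Z := Z) (C := C) (Y := Y) (J := J) (v := v) hp
  linarith

end core

/-! ### The closing inequality -/

/-- **The gain is bounded.** `df` is the difference of the filling and of the defect, `g` the gain,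
`k` the range, `hc` the growth of the penalty of the coarse label, for every shape of the pair. -/
theorem gain_le {S : Type*} (s : Finset S) (P df g k hc : S → ℝ) (hP : ∀ i ∈ s, 0 ≤ P i)
    (h1 : ∑ i ∈ s, P i ≤ 1) {e r a c₁ c₂ c₃ B₁ B₂ : ℝ} (he : 0 ≤ e)
    (hc₁ : 0 ≤ c₁) (hc₂ : 0 ≤ c₂) (hc₃ : 0 ≤ c₃)
    (hg : ∀ i ∈ s, 0 ≤ g i)
    (opt1 : ∑ i ∈ s, P i * max 0 (df i - e * k i - hc i) ≤ B₁)
    (lat : ∀ i ∈ s, hc i ≤ r * g i + c₁)
    (opt2 : ∑ i ∈ s, P i * max 0 (g i - df i - e * k i - c₂) ≤ B₂)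
    (hk : ∀ i ∈ s, k i ≤ a * g i + c₃) (hr : r + 2 * e * a ≤ 1 / 2) :
    ∑ i ∈ s, P i * g i ≤ 2 * (B₁ + B₂ + c₁ + c₂ + 2 * e * c₃) := by
  have key : ∀ i ∈ s, P i * g i ≤ P i * max 0 (df i - e * k i - hc i) +
      P i * max 0 (g i - df i - e * k i - c₂) + P i * (c₁ + c₂ + 2 * e * c₃) +
      (1 / 2) * (P i * g i) := by
    intro i hi
    have e1 : df i - e * k i - hc i ≤ max 0 (df i - e * k i - hc i) := le_max_right _ _
    have e2 : g i - df i - e * k i - c₂ ≤ max 0 (g i - df i - e * k i - c₂) := le_max_right _ _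
    have e3 : e * k i ≤ e * (a * g i + c₃) := mul_le_mul_of_nonneg_left (hk i hi) he
    have e4 : (r + 2 * e * a) * g i ≤ 1 / 2 * g i := mul_le_mul_of_nonneg_right hr (hg i hi)
    have e5 := lat i hi
    have e6 : g i ≤ max 0 (df i - e * k i - hc i) + max 0 (g i - df i - e * k i - c₂) +
        (c₁ + c₂ + 2 * e * c₃) + 1 / 2 * g i := by
      have : e * (a * g i + c₃) = e * a * g i + e * c₃ := by ring
      have e7 : (r + 2 * e * a) * g i = r * g i + 2 * (e * a * g i) := by ring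
      nlinarith [e1, e2, e3, e4, e5, this, e7]
    calc P i * g i ≤ P i * (max 0 (df i - e * k i - hc i) +
          max 0 (g i - df i - e * k i - c₂) + (c₁ + c₂ + 2 * e * c₃) + 1 / 2 * g i) :=
          mul_le_mul_of_nonneg_left e6 (hP i hi)
      _ = _ := by ring
  have hs := Finset.sum_le_sum key
  rw [Finset.sum_add_distrib, Finset.sum_add_distrib, Finset.sum_add_distrib, ← Finset.sum_mul,
    ← Finset.mul_sum] at hs
  have h2 : (∑ i ∈ s, P i) * (c₁ + c₂ + 2 * e * c₃) ≤ 1 * (c₁ + c₂ + 2 * e * c₃) :=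
    mul_le_mul_of_nonneg_right h1 (by positivity)
  linarith

/-- **The range is bounded, and the loss of the localization is small.** -/
theorem loss_le {S : Type*} (s : Finset S) (P df g k hc : S → ℝ) (hP : ∀ i ∈ s, 0 ≤ P i)
    (h1 : ∑ i ∈ s, P i ≤ 1) {e r a c₁ c₃ B₁ G : ℝ} (he : 0 ≤ e) (hr : 0 ≤ r) (ha : 0 ≤ a)
    (hc₁ : 0 ≤ c₁) (hc₃ : 0 ≤ c₃)
    (opt1 : ∑ i ∈ s, P i * max 0 (df i - e * k i - hc i) ≤ B₁)
    (lat : ∀ i ∈ s, hc i ≤ r * g i + c₁) (hk : ∀ i ∈ s, k i ≤ a * g i + c₃)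
    (hG : ∑ i ∈ s, P i * g i ≤ G) :
    ∑ i ∈ s, P i * k i ≤ a * G + c₃ ∧
      ∑ i ∈ s, P i * df i ≤ B₁ + e * (a * G + c₃) + r * G + c₁ := by
  have hk' : ∑ i ∈ s, P i * k i ≤ a * G + c₃ := by
    have h2 : ∑ i ∈ s, P i * k i ≤ ∑ i ∈ s, (a * (P i * g i) + P i * c₃) := by
      refine Finset.sum_le_sum fun i hi => ?_
      calc P i * k i ≤ P i * (a * g i + c₃) := mul_le_mul_of_nonneg_left (hk i hi) (hP i hi)
        _ = _ := by ring
    rw [Finset.sum_add_distrib, ← Finset.mul_sum, ← Finset.sum_mul] at h2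
    have h3 : a * ∑ i ∈ s, P i * g i ≤ a * G := mul_le_mul_of_nonneg_left hG ha
    have h4 : (∑ i ∈ s, P i) * c₃ ≤ 1 * c₃ := mul_le_mul_of_nonneg_right h1 hc₃
    linarith
  refine ⟨hk', ?_⟩
  have h2 : ∑ i ∈ s, P i * df i ≤ ∑ i ∈ s, (P i * max 0 (df i - e * k i - hc i) +
      e * (P i * k i) + (r * (P i * g i) + P i * c₁)) := by
    refine Finset.sum_le_sum fun i hi => ?_
    have e1 : df i - e * k i - hc i ≤ max 0 (df i - e * k i - hc i) := le_max_right _ _
    have e5 := lat i hi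
    calc P i * df i ≤ P i * (max 0 (df i - e * k i - hc i) + e * k i + (r * g i + c₁)) :=
          mul_le_mul_of_nonneg_left (by linarith) (hP i hi)
      _ = _ := by ring
  rw [Finset.sum_add_distrib, Finset.sum_add_distrib, Finset.sum_add_distrib, ← Finset.mul_sum,
    ← Finset.mul_sum, ← Finset.sum_mul] at h2
  have h3 : e * ∑ i ∈ s, P i * k i ≤ e * (a * G + c₃) := mul_le_mul_of_nonneg_left hk' he
  have h4 : r * ∑ i ∈ s, P i * g i ≤ r * G := mul_le_mul_of_nonneg_left hG hr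
  have h5 : (∑ i ∈ s, P i) * c₁ ≤ 1 * c₁ := mul_le_mul_of_nonneg_right h1 hc₁
  linarith

end Pool.TURN
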